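import Mathlib.Analysis.CStarAlgebra.Classes
import Mathlib.Analysis.CStarAlgebra.Matrix
import Mathlib.Algebra.Star.StarAlgHom
import Mathlib.CategoryTheory.Preadditive.Basic
import Mathlib.CategoryTheory.Iso
import Mathlib.Topology.UnitInterval

/-!
# Kirchberg algebras without K-theory and their automorphisms modulo homotopy
-/

set_option autoImplicit false

namespace Pool.Agent.H839.UC

open CategoryTheory

/-- the linear map `φ` is completely positive: the sums `∑ b_i^* φ(a_i^* a_j) b_j` are of the form
`c^* c` -/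
def IsCP {A B : Type*} [NonUnitalRing A] [StarRing A] [Module ℂ A] [NonUnitalRing B] [StarRing B]
    [Module ℂ B] (φ : A →ₗ[ℂ] B) : Prop :=
  ∀ (n : ℕ) (a : Fin n → A) (b : Fin n → B), ∃ c : B,
    ∑ i, ∑ j, star (b i) * φ (star (a i) * a j) * b j = star c * c

/-- the C*-algebra `A` is nuclear: the identity is a pointwise limit of completely positive
contractions which factor through matrix algebras -/
def Nuclear (A : Type*) [NonUnitalCStarAlgebra A] : Prop :=
  ∀ (F : Finset A) (ε : ℝ), 0 < ε → ∃ (n : ℕ) (φ : A →ₗ[ℂ] Matrix (Fin n) (Fin n) ℂ)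
    (ψ : Matrix (Fin n) (Fin n) ℂ →ₗ[ℂ] A), IsCP φ ∧ IsCP ψ ∧ (∀ a, ‖ψ (φ a)‖ ≤ ‖a‖) ∧
      ∀ a ∈ F, ‖ψ (φ a) - a‖ < ε

/-- a separable nuclear C*-algebra (with or without unit) -/
structure SepNuclear where
  /-- the elements -/
  A : Type
  [inst : NonUnitalCStarAlgebra A]
  /-- separable -/
  separable : TopologicalSpace.SeparableSpace A
  /-- nuclear -/
  nuclear : Nuclear A

/-- a **unital Kirchberg algebra** `C` (separable, nuclear, simple and purely infinite) with
`K_*(C) = 0`. By theorems of Cuntz the last condition means that all nonzero projections of `C` are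
equivalent and that the unitary group is connected. -/
structure KZeroKirchberg where
  /-- the elements -/
  A : Type
  [inst : CStarAlgebra A]
  /-- separable -/
  separable : TopologicalSpace.SeparableSpace A
  /-- nuclear -/
  nuclear : Nuclear A
  /-- `A` is not the complex numbers -/
  infinite : ∃ a : A, ∀ z : ℂ, a ≠ algebraMap ℂ A z
  /-- `A` is simple and purely infinite -/
  purelyInfinite : ∀ a : A, a ≠ 0 → ∃ x y : A, x * a * y = 1
  /-- `K_0(A) = 0`: all nonzero projections are equivalent -/
  K0 : ∀ p q : A, IsStarProjection p → p ≠ 0 → IsStarProjection q → q ≠ 0 →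
    ∃ v : A, star v * v = p ∧ v * star v = q
  /-- `K_1(A) = 0`: the unitary group is connected -/
  K1 : IsConnected (unitary A : Set A)

attribute [instance] SepNuclear.inst KZeroKirchberg.inst

/-- the group of the automorphisms of `C` -/
abbrev KZeroKirchberg.Aut (C : KZeroKirchberg) : Type := C.A ≃⋆ₐ[ℂ] C.A

/-- the automorphisms `α` and `β` are **homotopic**: they are joined by a path of automorphisms which
is continuous in the topology of pointwise norm convergence -/
def Homotopic {C : KZeroKirchberg} (α β : C.Aut) : Prop :=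
  ∃ γ : unitInterval → C.Aut, γ 0 = α ∧ γ 1 = β ∧ ∀ a : C.A, Continuous fun t => γ t a

/-- the group `Γ` is (isomorphic to) a subgroup of the group `π₀(Aut C)` of the homotopy classes of
automorphisms of `C` -/
def Embeds (Γ : Type*) [Group Γ] (C : KZeroKirchberg) : Prop :=
  ∃ ρ : Γ → C.Aut, (∀ g h, Homotopic (ρ (g * h)) (ρ g * ρ h)) ∧
    ∀ g h, Homotopic (ρ g) (ρ h) → g = h

/-- `π₀(Aut C)` is commutative -/
def Commutative (C : KZeroKirchberg) : Prop := ∀ α β : C.Aut, Homotopic (α * β) (β * α)

/-- `π₀(Aut C)` is countable -/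
def CountablyManyClasses (C : KZeroKirchberg) : Prop :=
  ∃ s : ℕ → C.Aut, ∀ α : C.Aut, ∃ n, Homotopic α (s n)

universe v u

/-- **KK-theory.** `𝒩` is the category of the separable nuclear C*-algebras `A` with `K_*(A) = 0` and
of the groups `KK(A, B)` as morphisms; the fields are the known facts which are used. -/
structure KKTheory (𝒩 : Type u) [Category.{v} 𝒩] [Preadditive 𝒩] where
  /-- the algebra `C` as an object of `𝒩` -/
  obj : KZeroKirchberg → 𝒩
  /-- the class in `KK(C, C)` of an automorphism of `C` -/
  cl : ∀ C : KZeroKirchberg, C.Aut → (obj C ≅ obj C)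
  /-- the class of a composition -/
  cl_mul : ∀ (C : KZeroKirchberg) (α β : C.Aut), (cl C (α * β)).hom = (cl C β).hom ≫ (cl C α).hom
  /-- Kirchberg, Phillips: automorphisms with the same class are asymptotically unitarily equivalent,
  hence homotopic, as the unitary group is connected; and homotopic ones have the same class -/
  homotopic_iff : ∀ (C : KZeroKirchberg) (α β : C.Aut),
    Homotopic α β ↔ (cl C α).hom = (cl C β).hom
  /-- Kirchberg, Phillips: invertible elements of `KK(C, C)` are classes of automorphisms -/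
  lift : ∀ (C : KZeroKirchberg) (u : obj C ≅ obj C), ∃ α, (cl C α).hom = u.hom
  /-- Kirchberg: each object is KK-equivalent to a unital Kirchberg algebra -/
  model : ∀ X : 𝒩, ∃ C, Nonempty (obj C ≅ X)
  /-- Kasparov: countable direct sums are coproducts -/
  sum : ∀ X : 𝒩, ∃ (S : 𝒩) (ι : ℕ → (X ⟶ S)),
    ∀ (D : 𝒩) (f : ℕ → (X ⟶ D)), ∃! g : S ⟶ D, ∀ n, ι n ≫ g = f n
  /-- `A` satisfies the UCT of Rosenberg and Schochet -/
  UCT : SepNuclear → Prop
  /-- Kirchberg: all separable nuclear C*-algebras satisfy the UCT if and only if `KK(C, C) = 0` for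
  all unital Kirchberg algebras with `K_*(C) = 0` -/
  kirchberg : (∀ A, UCT A) ↔ ∀ C, 𝟙 (obj C) = 0

end Pool.Agent.H839.UC
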