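import Mathlib
import Pool.Agent.H839.UC.Defs

/-!
# Duals and compact objects in the KK-category
-/

set_option autoImplicit false
set_option linter.unusedSectionVars false

namespace Pool.Agent.H839.UC

open CategoryTheory CategoryTheory.Limits MonoidalCategory

universe v u

section Defs

variable {𝒦 : Type u} [Category.{v} 𝒦] [Preadditive 𝒦] [HasCountableCoproducts 𝒦]

/-- `KK(A, ⊕ B_n) = ⊕ KK(A, B_n)` for all sequences `B`: each element of `KK(A, ⊕ B_n)` is a finite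
sum of elements of the groups `KK(A, B_n)`. -/
def CommutesWithSums (A : 𝒦) : Prop :=
  ∀ (B : ℕ → 𝒦) (f : A ⟶ ∐ B), ∃ (N : ℕ) (g : ∀ i, A ⟶ B i),
    f = ∑ i ∈ Finset.range N, g i ≫ Sigma.ι B i

/-- `KK(A, ⊕ A) = ⊕ KK(A, A)` for the direct sum of countably many copies of `A`. -/
def CommutesWithOwnSums (A : 𝒦) : Prop :=
  ∀ f : A ⟶ ∐ fun _ : ℕ => A, ∃ (N : ℕ) (g : ℕ → (A ⟶ A)),
    f = ∑ i ∈ Finset.range N, g i ≫ Sigma.ι (fun _ : ℕ => A) i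

/-- `A` has a (Spanier-Whitehead) K-dual `D`: there are elements of `KK(ℂ, D ⊗ A)` and
`KK(A ⊗ D, ℂ)` with the triangle identities. -/
def HasKDual [MonoidalCategory 𝒦] (A : 𝒦) : Prop := ∃ D : 𝒦, Nonempty (ExactPairing D A)

end Defs

/-- **KK-theory.** `𝒦` is the category of the separable nuclear C*-algebras with the groups
`KK(A, B)` as morphisms, the tensor product of C*-algebras, and the direct sums as countable
coproducts; `K_0(A) = KK(ℂ, A)` and `K_1(A) = KK(ℂ, C_0(ℝ) ⊗ A)`.  The fields are the known facts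
which are used. -/
structure KKCategory (𝒦 : Type u) [Category.{v} 𝒦] [Preadditive 𝒦] [MonoidalCategory 𝒦]
    [HasCountableCoproducts 𝒦] where
  /-- the object given by an algebra -/
  obj : SepNuclear → 𝒦
  surj : ∀ X : 𝒦, ∃ A, Nonempty (obj A ≅ X)
  /-- the algebra `C_0(ℝ)` -/
  sus : 𝒦
  /-- K-theory commutes with direct sums -/
  unit_sums : CommutesWithSums (𝟙_ 𝒦)
  /-- `A` satisfies the UCT of Rosenberg and Schochet -/
  UCT : SepNuclear → Prop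
  /-- Rosenberg, Schochet: `A` satisfies the UCT if and only if `KK(A, B) = 0` for all `B` with
  `K_*(B) = 0` -/
  uct_iff : ∀ A, UCT A ↔ ∀ B : 𝒦, (∀ x : 𝟙_ 𝒦 ⟶ B, x = 0) → (∀ x : 𝟙_ 𝒦 ⟶ sus ⊗ B, x = 0) →
    ∀ f : obj A ⟶ B, f = 0
  /-- algebras which satisfy the UCT and have finitely generated K-theory have duals -/
  dual : ∀ A, UCT A → AddGroup.FG (𝟙_ 𝒦 ⟶ obj A) → AddGroup.FG (𝟙_ 𝒦 ⟶ sus ⊗ obj A) →
    HasKDual (obj A)

/-- `CommutesWithOwnSums` is invariant under isomorphisms. -/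
theorem ownSums_iso {𝒦 : Type u} [Category.{v} 𝒦] [Preadditive 𝒦] [HasCountableCoproducts 𝒦]
    {X Y : 𝒦} (e : X ≅ Y) (h : CommutesWithOwnSums X) : CommutesWithOwnSums Y := by
  intro f
  let p : (∐ fun _ : ℕ => Y) ⟶ ∐ fun _ : ℕ => X :=
    Sigma.desc fun i => e.inv ≫ Sigma.ι (fun _ : ℕ => X) i
  let q : (∐ fun _ : ℕ => X) ⟶ ∐ fun _ : ℕ => Y :=
    Sigma.desc fun i => e.hom ≫ Sigma.ι (fun _ : ℕ => Y) i
  have hpq : p ≫ q = 𝟙 _ := by
    apply Sigma.hom_ext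
    intro i
    simp [p, q]
  obtain ⟨N, g, hg⟩ := h (e.hom ≫ f ≫ p)
  refine ⟨N, fun i => e.inv ≫ g i ≫ e.hom, ?_⟩
  have h1 : f = e.inv ≫ (e.hom ≫ f ≫ p) ≫ q := by
    simp [hpq]
  rw [h1, hg, Preadditive.sum_comp, Preadditive.comp_sum]
  refine Finset.sum_congr rfl fun i _ => ?_
  simp [q]

namespace KKCategory

variable {𝒦 : Type u} [Category.{v} 𝒦] [Preadditive 𝒦] [MonoidalCategory 𝒦]
  [HasCountableCoproducts 𝒦] (K : KKCategory 𝒦)

/-- `K_*(X) = 0` -/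
def KZero (X : 𝒦) : Prop := (∀ x : 𝟙_ 𝒦 ⟶ X, x = 0) ∧ ∀ x : 𝟙_ 𝒦 ⟶ K.sus ⊗ X, x = 0

/-- `K_*(X)` is finitely generated -/
def KFinite (X : 𝒦) : Prop := AddGroup.FG (𝟙_ 𝒦 ⟶ X) ∧ AddGroup.FG (𝟙_ 𝒦 ⟶ K.sus ⊗ X)

variable [MonoidalPreadditive 𝒦] [∀ X : 𝒦, PreservesColimitsOfShape (Discrete ℕ) (tensorLeft X)]

include K in
/-- Morphisms from the unit object to `Y ⊗ ∐ B`. -/
theorem unit_tensor (Y : 𝒦) (B : ℕ → 𝒦) (F : 𝟙_ 𝒦 ⟶ Y ⊗ ∐ B) :
    ∃ (N : ℕ) (g : ∀ i, 𝟙_ 𝒦 ⟶ Y ⊗ B i), F = ∑ i ∈ Finset.range N, g i ≫ Y ◁ Sigma.ι B i := by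
  let e := PreservesCoproduct.iso (tensorLeft Y) B
  obtain ⟨N, g, h⟩ := K.unit_sums (fun i => Y ⊗ B i) (F ≫ e.hom)
  refine ⟨N, g, ?_⟩
  have h1 : ∀ i, Sigma.ι (fun i => Y ⊗ B i) i ≫ e.inv = Y ◁ Sigma.ι B i := fun i => by
    have := ι_comp_sigmaComparison (tensorLeft Y) B i
    rw [← PreservesCoproduct.inv_hom] at this
    exact this
  have h2 : F = (F ≫ e.hom) ≫ e.inv := by simp
  rw [h2, h, Preadditive.sum_comp]
  exact Finset.sum_congr rfl fun i _ => by rw [Category.assoc, h1]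

include K in
theorem sums_of_dual (A : 𝒦) (h : HasKDual A) : CommutesWithSums A := by
  obtain ⟨D, ⟨hD⟩⟩ := h
  intro B f
  let Q := fun Z => tensorLeftHomEquiv (𝟙_ 𝒦) D A Z
  have hadd : ∀ (Z : 𝒦) (s : Finset ℕ) (a : ℕ → (A ⊗ 𝟙_ 𝒦 ⟶ Z)),
      Q Z (∑ i ∈ s, a i) = ∑ i ∈ s, Q Z (a i) := fun Z s a => by
    simp only [Q, tensorLeftHomEquiv, Equiv.coe_fn_mk, whiskerLeft_sum, Preadditive.comp_sum]
  obtain ⟨N, g, hg⟩ := K.unit_tensor D B (Q _ ((ρ_ A).hom ≫ f))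
  refine ⟨N, fun i => (ρ_ A).inv ≫ (Q _).symm (g i), ?_⟩
  have h1 : (ρ_ A).hom ≫ f = ∑ i ∈ Finset.range N, (Q _).symm (g i) ≫ Sigma.ι B i := by
    apply (Q _).injective
    rw [hg, hadd]
    refine Finset.sum_congr rfl fun i _ => ?_
    have h2 := tensorLeftHomEquiv_naturality (X := 𝟙_ 𝒦) (Y := D) (Y' := A) ((Q _).symm (g i))
      (Sigma.ι B i)
    change _ = Q _ ((Q _).symm (g i) ≫ Sigma.ι B i)
    rw [h2]
    simp [Q]
  rw [← Category.id_comp f, ← (ρ_ A).inv_hom_id, Category.assoc, h1, Preadditive.comp_sum]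
  exact Finset.sum_congr rfl fun i _ => by rw [Category.assoc]

theorem kZero_iso {X Y : 𝒦} (e : X ≅ Y) (h : K.KZero X) : K.KZero Y := by
  refine ⟨fun x => ?_, fun x => ?_⟩
  · have := h.1 (x ≫ e.inv)
    rw [← Category.comp_id x, ← e.inv_hom_id, ← Category.assoc, this, zero_comp]
  · have := h.2 (x ≫ K.sus ◁ e.inv)
    rw [← Category.comp_id x, ← whiskerLeft_id, ← e.inv_hom_id, MonoidalCategory.whiskerLeft_comp,
      ← Category.assoc, this, zero_comp]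

theorem kZero_sum {X : 𝒦} (h : K.KZero X) : K.KZero (∐ fun _ : ℕ => X) := by
  refine ⟨fun x => ?_, fun x => ?_⟩
  · obtain ⟨N, g, hg⟩ := K.unit_sums _ x
    rw [hg]
    exact Finset.sum_eq_zero fun i _ => by rw [h.1 (g i), zero_comp]
  · obtain ⟨N, g, hg⟩ := K.unit_tensor K.sus _ x
    rw [hg]
    exact Finset.sum_eq_zero fun i _ => by rw [h.2 (g i), zero_comp]

theorem id_zero_of_ownSums (h : ∀ X : 𝒦, K.KZero X → CommutesWithOwnSums X) (X : 𝒦)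
    (hX : K.KZero X) : 𝟙 X = 0 := by
  classical
  let S : 𝒦 := ∐ fun _ : ℕ => X
  let ι : ℕ → (X ⟶ S) := fun n => Sigma.ι (fun _ : ℕ => X) n
  let f : S ⟶ ∐ fun _ : ℕ => S := Sigma.desc fun n => ι n ≫ Sigma.ι (fun _ : ℕ => S) n
  obtain ⟨N, g, hg⟩ := h S (K.kZero_sum hX) f
  have h1 : f ≫ Sigma.π (fun _ : ℕ => S) N = 0 := by
    rw [hg, Preadditive.sum_comp]
    refine Finset.sum_eq_zero fun i hi => ?_
    have hne : i ≠ N := (Finset.mem_range.1 hi).ne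
    rw [Category.assoc, Sigma.ι_π_of_ne _ hne, comp_zero]
  have h2 : ι N ≫ f ≫ Sigma.π (fun _ : ℕ => S) N = ι N := by
    have : ι N ≫ f = ι N ≫ Sigma.ι (fun _ : ℕ => S) N := by
      simp [ι, f]
    rw [← Category.assoc, this, Category.assoc, Sigma.ι_π_eq_id, Category.comp_id]
  rw [h1, comp_zero] at h2
  have h3 : ι N ≫ Sigma.π (fun _ : ℕ => X) N = 𝟙 X := Sigma.ι_π_eq_id _ _
  rw [← h3, ← h2, zero_comp]

end KKCategory

end Pool.Agent.H839.UC
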