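import Mathlib
import Pool.Agent.H839.UC.Defs

/-!
# Automorphisms of Kirchberg algebras without K-theory: proofs
-/

set_option autoImplicit false

namespace Pool.Agent.H839.UC

open CategoryTheory

universe v u

variable {𝒩 : Type u} [Category.{v} 𝒩] [Preadditive 𝒩] (T : KKTheory 𝒩)

include T in
/-- If not all `KK(C, C)` are zero then `Perm ℕ` embeds in `π₀(Aut C)` for some `C`. -/
theorem perm_embeds (C₀ : KZeroKirchberg) (h0 : 𝟙 (T.obj C₀) ≠ 0) :
    ∃ C : KZeroKirchberg, Embeds (Equiv.Perm ℕ) C := by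
  obtain ⟨S, ι, hu⟩ := T.sum (T.obj C₀)
  obtain ⟨C, ⟨e⟩⟩ := T.model S
  choose f hf huf using fun σ : Equiv.Perm ℕ => hu S (fun n => ι (σ n))
  have ext : ∀ {D : 𝒩} (g g' : S ⟶ D), (∀ n, ι n ≫ g = ι n ≫ g') → g = g' := by
    intro D g g' h
    exact (hu D (fun n => ι n ≫ g)).unique (fun n => rfl) (fun n => (h n).symm)
  have fone : f 1 = 𝟙 S := ext _ _ fun n => by rw [hf]; simp
  have fmul : ∀ σ τ, f (σ * τ) = f τ ≫ f σ := fun σ τ => ext _ _ fun n => by
    rw [hf, ← Category.assoc, hf, hf]; rfl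
  have hι : ∀ m n, ι m = ι n → m = n := by
    intro m n h
    by_contra hne
    obtain ⟨g, hg, -⟩ := hu (T.obj C₀) (fun k => if k = m then 𝟙 _ else 0)
    apply h0
    have h1 := hg m
    have h2 := hg n
    rw [if_pos rfl] at h1
    rw [if_neg (Ne.symm hne)] at h2
    rw [← h1, h, h2]
  -- the automorphism of `obj C` given by `σ`
  let u : Equiv.Perm ℕ → (T.obj C ≅ T.obj C) := fun σ =>
    { hom := e.hom ≫ f σ ≫ e.inv
      inv := e.hom ≫ f σ⁻¹ ≫ e.inv
      hom_inv_id := by
        have : f σ ≫ f σ⁻¹ = 𝟙 S := by rw [← fmul, inv_mul_cancel, fone]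
        simp only [Category.assoc, Iso.inv_hom_id_assoc]
        rw [reassoc_of% this, Iso.hom_inv_id]
      inv_hom_id := by
        have : f σ⁻¹ ≫ f σ = 𝟙 S := by rw [← fmul, mul_inv_cancel, fone]
        simp only [Category.assoc, Iso.inv_hom_id_assoc]
        rw [reassoc_of% this, Iso.hom_inv_id] }
  choose ρ hρ using fun σ => T.lift C (u σ)
  refine ⟨C, ρ, fun σ τ => ?_, fun σ τ h => ?_⟩
  · rw [T.homotopic_iff, T.cl_mul, hρ, hρ, hρ]
    simp only [u, Category.assoc, Iso.inv_hom_id_assoc]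
    rw [fmul, Category.assoc]
  · rw [T.homotopic_iff, hρ, hρ] at h
    have h1 : f σ = f τ := by
      have h2 : e.hom ≫ f σ ≫ e.inv = e.hom ≫ f τ ≫ e.inv := h
      rwa [cancel_epi, cancel_mono] at h2
    ext n
    apply hι
    rw [← hf, ← hf, h1]

/-- There are uncountably many permutations of `ℕ`. -/
theorem perm_uncountable (h : Countable (Equiv.Perm ℕ)) : False := by
  classical
  let f : Set ℕ → Equiv.Perm (ℕ × Bool) := fun s =>
    { toFun := fun x => (x.1, if x.1 ∈ s then !x.2 else x.2)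
      invFun := fun x => (x.1, if x.1 ∈ s then !x.2 else x.2)
      left_inv := fun x => by by_cases hx : x.1 ∈ s <;> simp [hx]
      right_inv := fun x => by by_cases hx : x.1 ∈ s <;> simp [hx] }
  have hf : Function.Injective f := by
    intro s t hst
    ext n
    have h1 := Equiv.congr_fun hst (n, true)
    simp only [f, Equiv.coe_fn_mk, Prod.mk.injEq, true_and] at h1
    by_cases ha : n ∈ s <;> by_cases hb : n ∈ t <;> simp_all
  obtain ⟨e⟩ := nonempty_equiv_of_countable (α := ℕ × Bool) (β := ℕ)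
  have hc : Countable (Equiv.Perm (ℕ × Bool)) := (Equiv.permCongr e).injective.countable
  have hc2 : Countable (Set ℕ) := hf.countable
  obtain ⟨g, hg⟩ := exists_surjective_nat (Set ℕ)
  exact Function.cantor_surjective g hg

/-- A group embeds in `π₀(Aut C)` if a larger one does. -/
theorem Embeds.comp {Γ Δ : Type*} [Group Γ] [Group Δ] (φ : Γ →* Δ) (hφ : Function.Injective φ)
    {C : KZeroKirchberg} (h : Embeds Δ C) : Embeds Γ C := by
  obtain ⟨ρ, h1, h2⟩ := h
  exact ⟨fun g => ρ (φ g), fun g h => by simp only [map_mul]; exact h1 _ _,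
    fun g h hh => hφ (h2 _ _ hh)⟩

/-- Every countable group is a group of permutations of `ℕ`. -/
theorem exists_hom_perm (Γ : Type*) [Group Γ] [Countable Γ] :
    ∃ φ : Γ →* Equiv.Perm ℕ, Function.Injective φ := by
  obtain ⟨i, hi⟩ := exists_injective_nat Γ
  refine ⟨(Equiv.Perm.viaEmbeddingHom ⟨i, hi⟩).comp (MulAction.toPermHom Γ Γ), ?_⟩
  rw [MonoidHom.coe_comp]
  exact (Equiv.Perm.viaEmbeddingHom_injective _).comp MulAction.toPerm_injective

include T in
theorem tfae (Γ : Type) [Group Γ] [Countable Γ] [Nontrivial Γ] : List.TFAE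
    [∀ A : SepNuclear, T.UCT A,
     ∀ (C : KZeroKirchberg) (α β : C.Aut), Homotopic α β,
     ∀ C : KZeroKirchberg, ¬ Embeds Γ C,
     ∀ C : KZeroKirchberg, ∃ (Δ : Type) (_ : Group Δ), Countable Δ ∧ ¬ Embeds Δ C,
     ∀ C : KZeroKirchberg, Commutative C,
     ∀ C : KZeroKirchberg, CountablyManyClasses C,
     ∀ C : KZeroKirchberg, ¬ Embeds (Equiv.Perm ℕ) C] := by
  tfae_have 1 → 2 := by
    intro h C α β
    have h1 := T.kirchberg.1 h C
    rw [T.homotopic_iff, ← Category.comp_id (T.cl C α).hom, ← Category.comp_id (T.cl C β).hom, h1,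
      Limits.comp_zero, Limits.comp_zero]
  tfae_have 2 → 3 := by
    rintro h C ⟨ρ, -, h2⟩
    obtain ⟨a, b, hab⟩ := exists_pair_ne Γ
    exact hab (h2 _ _ (h C _ _))
  tfae_have 3 → 4 := fun h C => ⟨Γ, inferInstance, inferInstance, h C⟩
  tfae_have 4 → 7 := by
    intro h C hC
    obtain ⟨Δ, _, _, h1⟩ := h C
    obtain ⟨φ, hφ⟩ := exists_hom_perm Δ
    exact h1 (hC.comp φ hφ)
  tfae_have 2 → 5 := fun h C α β => h C _ _
  tfae_have 5 → 7 := by
    rintro h C ⟨ρ, h1, h2⟩
    have h3 : ∀ σ τ : Equiv.Perm ℕ, σ * τ = τ * σ := by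
      intro σ τ
      apply h2
      have a1 := (T.homotopic_iff C _ _).1 (h1 σ τ)
      have a2 := (T.homotopic_iff C _ _).1 (h1 τ σ)
      have a3 := (T.homotopic_iff C _ _).1 (h C (ρ σ) (ρ τ))
      exact (T.homotopic_iff C _ _).2 (by rw [a1, a2, a3])
    have h4 := Equiv.congr_fun (h3 (Equiv.swap 0 1) (Equiv.swap 1 2)) 0
    simp only [Equiv.Perm.mul_apply] at h4
    revert h4
    decide
  tfae_have 2 → 6 := fun h C => ⟨fun _ => 1, fun α => ⟨0, h C _ _⟩⟩
  tfae_have 6 → 7 := by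
    rintro h C ⟨ρ, h1, h2⟩
    obtain ⟨s, hs⟩ := h C
    choose n hn using fun σ => hs (ρ σ)
    have hinj : Function.Injective n := by
      intro σ τ hστ
      apply h2
      rw [T.homotopic_iff]
      have b1 := (T.homotopic_iff C _ _).1 (hn σ)
      have b2 := (T.homotopic_iff C _ _).1 (hn τ)
      rw [b1, b2, hστ]
    have hc : Countable (Equiv.Perm ℕ) := hinj.countable
    exact perm_uncountable hc
  tfae_have 7 → 1 := by
    intro h
    rw [T.kirchberg]
    intro C
    by_contra h0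
    obtain ⟨D, hD⟩ := perm_embeds T C h0
    exact h D hD
  tfae_finish

end Pool.Agent.H839.UC
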